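import Mathlib

namespace Pool.Agent.Results.MP_98b1c4_co.Disproof

/-- Regular type A sequences: the summed block is adjacent to the new term. -/
inductive Reg : List ℕ → Prop
  | base : Reg [1, 1]
  | left (blk q : List ℕ) : blk ≠ [] → Reg (blk ++ q) → Reg (blk.sum :: (blk ++ q))
  | right (p blk : List ℕ) : blk ≠ [] → Reg (p ++ blk) → Reg ((p ++ blk) ++ [blk.sum])

/-- The least length of a regular type A sequence having an ordering of `ks` as a subsequence. -/
noncomputable def a (ks : List ℕ) : ℕ :=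
  sInf {n | ∃ d, Reg d ∧ d.length = n ∧ ∃ ks' : List ℕ, ks'.Perm ks ∧ ks'.Sublist d}

def next (l : List ℕ) : List (List ℕ) :=
  (List.range l.length).flatMap (fun k => [(l.take (k + 1)).sum :: l, l ++ [(l.drop k).sum]])

def cond (n : ℕ) (l : List ℕ) : Bool :=
  if n ≤ 5 then decide (57 * 2 ^ n ≤ 32 * l.sum)
  else if n = 6 then l.any (fun x => decide (57 ≤ x)) else (l.contains 57 && l.contains 62)

def gen : ℕ → List (List ℕ)
  | 0 => [[1, 1]]
  | n + 1 => ((gen n).flatMap next).filter (cond (n + 1))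

lemma cond_par (n : ℕ) (hn : n + 1 ≤ 7) (l c : List ℕ) (x : ℕ) (hx : x ≤ l.sum)
    (hs : c.sum = x + l.sum) (hm : ∀ y ∈ c, y = x ∨ y ∈ l) (h : cond (n + 1) c = true) :
    cond n l = true := by
  unfold cond at h ⊢
  by_cases h1 : n + 1 ≤ 5
  · rw [if_pos h1, decide_eq_true_eq, pow_succ] at h
    rw [if_pos (by omega), decide_eq_true_eq]
    omega
  · rw [if_neg h1] at h
    by_cases h2 : n + 1 = 6
    · rw [if_pos h2, List.any_eq_true] at h
      obtain ⟨y, hy, h57⟩ := h
      rw [decide_eq_true_eq] at h57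
      have hn5 : n = 5 := by omega
      subst hn5
      rw [if_pos le_rfl, decide_eq_true_eq]
      rcases hm y hy with rfl | h3
      · omega
      · have := List.single_le_sum (l := l) (fun _ _ => Nat.zero_le _) y h3
        omega
    · rw [if_neg h2] at h
      simp only [Bool.and_eq_true, List.contains_iff_mem] at h
      rw [if_neg (by omega), if_pos (by omega), List.any_eq_true]
      rcases hm 57 h.1 with h3 | h3
      · rcases hm 62 h.2 with h4 | h4
        · omega
        · exact ⟨62, h4, by decide⟩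
      · exact ⟨57, h3, by decide⟩

lemma cond_of (n : ℕ) (d : List ℕ) (h1 : 57 ∈ d) (h2 : 62 ∈ d) : cond n d = true := by
  unfold cond
  split_ifs with a b
  · have := List.single_le_sum (l := d) (fun _ _ => Nat.zero_le _) 57 h1
    have h3 : 2 ^ n ≤ 2 ^ 5 := Nat.pow_le_pow_right (by norm_num) a
    rw [decide_eq_true_eq]
    omega
  · exact List.any_eq_true.2 ⟨57, h1, by decide⟩
  · simp [h1, h2]

lemma check : (List.range 8).all (fun n => (gen n).all
    (fun l => !(l.contains 57 && l.contains 62))) = true := by decide +kernel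

lemma mem_gen (d : List ℕ) (h : Reg d) :
    ∃ n, d.length = n + 2 ∧ (n ≤ 7 → cond n d = true → d ∈ gen n) := by
  induction h with
  | base => exact ⟨0, rfl, by simp [gen]⟩
  | left blk q hb _ ih =>
    obtain ⟨n, h1, h2⟩ := ih
    have hl : 0 < blk.length := List.length_pos_iff.2 hb
    refine ⟨n + 1, by rw [List.length_cons, h1], fun hn hc => ?_⟩
    have h3 := h2 (by omega) (cond_par n hn _ _ blk.sum (by simp) (by simp) (by simp) hc)
    simp only [gen, next, List.mem_filter, List.mem_flatMap, List.mem_range]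
    refine ⟨⟨_, h3, blk.length - 1, by rw [List.length_append]; omega, ?_⟩, hc⟩
    rw [Nat.sub_add_cancel hl, List.take_left]
    simp
  | right p blk hb _ ih =>
    obtain ⟨n, h1, h2⟩ := ih
    have hl : 0 < blk.length := List.length_pos_iff.2 hb
    refine ⟨n + 1, by rw [List.length_append, h1]; rfl, fun hn hc => ?_⟩
    have h3 := h2 (by omega) (cond_par n hn _ _ blk.sum (by simp) (by simp; omega)
      (by simp; tauto) hc)
    simp only [gen, next, List.mem_filter, List.mem_flatMap, List.mem_range]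
    refine ⟨⟨_, h3, p.length, by rw [List.length_append]; omega, ?_⟩, hc⟩
    rw [List.drop_left]
    simp

lemma ex1 : Reg [1, 1, 2, 4, 8, 15, 31, 62] :=
  Reg.right [] [1, 1, 2, 4, 8, 15, 31] (by simp) <|
  Reg.right [] [1, 1, 2, 4, 8, 15] (by simp) <|
  Reg.right [1] [1, 2, 4, 8] (by simp) <|
  Reg.right [] [1, 1, 2, 4] (by simp) <|
  Reg.right [] [1, 1, 2] (by simp) <|
  Reg.right [] [1, 1] (by simp) Reg.base

lemma ex2 : Reg [62, 57, 4, 1, 1, 1, 1, 8, 16, 25] :=
  Reg.left [57, 4, 1] [1, 1, 1, 8, 16, 25] (by simp) <|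
  Reg.left [4, 1, 1, 1, 1, 8, 16, 25] [] (by simp) <|
  Reg.right [4, 1, 1, 1] [1, 8, 16] (by simp) <|
  Reg.right [] [4, 1, 1, 1, 1, 8] (by simp) <|
  Reg.right [] [4, 1, 1, 1, 1] (by simp) <|
  Reg.left [1, 1, 1, 1] [] (by simp) <|
  Reg.right [1, 1] [1] (by simp) <|
  Reg.right [1] [1] (by simp) Reg.base

theorem result : a [62] ≤ 8 ∧ a [57, 62] = 10 := by
  refine ⟨Nat.sInf_le ⟨_, ex1, rfl, [62], by decide, by decide⟩, ?_⟩
  have hm : 10 ∈ {n | ∃ d, Reg d ∧ d.length = n ∧
      ∃ ks' : List ℕ, ks'.Perm [57, 62] ∧ ks'.Sublist d} :=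
    ⟨_, ex2, rfl, [62, 57], by decide, by decide⟩
  have hle : a [57, 62] ≤ 10 := Nat.sInf_le hm
  obtain ⟨d, h1, h2, ks, h3, h3'⟩ := Nat.sInf_mem ⟨10, hm⟩
  obtain ⟨n, h4, h5⟩ := mem_gen d h1
  change d.length = a [57, 62] at h2
  by_contra hne
  have hn : n < 8 := by omega
  have h57 : 57 ∈ d := h3'.subset (h3.mem_iff.2 (by simp))
  have h62 : 62 ∈ d := h3'.subset (h3.mem_iff.2 (by simp))
  have := List.all_eq_true.1 (List.all_eq_true.1 check n (List.mem_range.2 hn)) d
    (h5 (by omega) (cond_of n d h57 h62))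
  simp [h57, h62] at this

end Pool.Agent.Results.MP_98b1c4_co.Disproof
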